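import Pool.Agent.H737R3.Points

/-!
# Demailly's inequality for arbitrary sets of points with multiplicities

The multiplicities are given by an arbitrary function `w` on the rational points of the projective
space, with finite or infinite support. The proof reduces to finitely many points: the polynomials
of bounded degree form a space of finite dimension, so finitely many of the conditions imply the
others.
-/

set_option autoImplicit false

universe u

namespace Pool.Agent.Y111.DM

open MvPolynomial Filter Topology Pool.Agent.H737R3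

variable {K : Type u} [Field K] {N : ℕ}

/-- The ideal of the polynomials which vanish to order at least `w p` at every rational point `p`
of the projective space of dimension `N` over `K`: the intersection of the ideals `I(p)^(w p)` over
all `p`. The support of `w` may be infinite. -/
noncomputable def multIdeal (w : PP K N → ℕ) : Ideal (MvPolynomial (Fin (N + 1)) K) :=
  ⨅ p : PP K N, ptIdeal p ^ w p

theorem mem_multIdeal {w : PP K N → ℕ} {F : MvPolynomial (Fin (N + 1)) K} :
    F ∈ multIdeal w ↔ ∀ p, F ∈ ptIdeal p ^ w p := by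
  unfold multIdeal
  simp only [Submodule.mem_iInf]

theorem multIdeal_le (w : PP K N → ℕ) (T : Finset (PP K N)) : multIdeal w ≤ wIdeal T w := by
  intro F hF
  rw [mem_wIdeal]
  exact fun p _ => mem_multIdeal.1 hF p

/-- finitely many conditions suffice in bounded degree -/
theorem exists_finset (w : PP K N → ℕ) (D : ℕ) :
    ∃ T : Finset (PP K N), ∀ F : MvPolynomial (Fin (N + 1)) K, F.totalDegree ≤ D →
      F ∈ wIdeal T w → F ∈ multIdeal w := by
  classical
  let V := restrictTotalDegree (Fin (N + 1)) K D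
  let W : Finset (PP K N) → Submodule K V := fun T =>
    ((wIdeal T w).restrictScalars K).comap V.subtype
  have hmem : ∀ (T : Finset (PP K N)) (x : V), x ∈ W T ↔
      ∀ p ∈ T, (x : MvPolynomial (Fin (N + 1)) K) ∈ ptIdeal p ^ w p := by
    intro T x
    exact mem_wIdeal
  have hwf : WellFounded ((· < ·) : Submodule K V → Submodule K V → Prop) :=
    (inferInstance : IsWellFounded (Submodule K V) (· < ·)).wf
  obtain ⟨-, ⟨T, rfl⟩, hT⟩ := hwf.has_min (Set.range W) ⟨_, ∅, rfl⟩
  refine ⟨T, fun F hFd hF => ?_⟩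
  rw [mem_multIdeal]
  intro p
  have hx : F ∈ V := (mem_restrictTotalDegree _ _ _).2 hFd
  have h1 : W (insert p T) ≤ W T := by
    intro x hx
    rw [hmem] at hx ⊢
    exact fun q hq => hx q (Finset.mem_insert_of_mem hq)
  have h2 : W (insert p T) = W T := by
    rcases h1.lt_or_eq with h | h
    · exact absurd h (hT _ ⟨_, rfl⟩)
    · exact h
  have h3 : (⟨F, hx⟩ : V) ∈ W T := (hmem _ _).2 fun q hq => mem_wIdeal.1 hF q hq
  rw [← h2, hmem] at h3
  exact h3 p (Finset.mem_insert_self _ _)

theorem component_mem_multIdeal {w : PP K N → ℕ} {F : MvPolynomial (Fin (N + 1)) K}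
    (h : F ∈ multIdeal w) (d : ℕ) : homogeneousComponent d F ∈ multIdeal w := by
  rw [mem_multIdeal] at h ⊢
  intro p
  have := h p
  rw [ptIdeal_eq] at this ⊢
  exact component_mem _ _ this d

/-- a form of least degree -/
theorem alpha_spec {w : PP K N → ℕ} (h : multIdeal w ≠ ⊥) :
    ∃ F ∈ multIdeal w, F ≠ 0 ∧ F.IsHomogeneous (alpha (multIdeal w)) := by
  have hne : {d | ∃ F ∈ multIdeal w, F ≠ 0 ∧ F.totalDegree = d}.Nonempty := by
    obtain ⟨F, hF, hF0⟩ := Submodule.exists_mem_ne_zero_of_ne_bot h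
    exact ⟨_, F, hF, hF0, rfl⟩
  obtain ⟨F, hF, hF0, hFd⟩ := Nat.sInf_mem hne
  refine ⟨homogeneousComponent F.totalDegree F, component_mem_multIdeal hF _,
    top_component hF0, ?_⟩
  have := homogeneousComponent_isHomogeneous F.totalDegree F
  rwa [hFd] at this ⊢

theorem alpha_le {w : PP K N → ℕ} {F : MvPolynomial (Fin (N + 1)) K}
    (hF : F ∈ multIdeal w) (hF0 : F ≠ 0) : alpha (multIdeal w) ≤ F.totalDegree :=
  Nat.sInf_le ⟨F, hF, hF0, rfl⟩

/-- the least degree of a form is the least degree of a polynomial -/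
theorem alphaH_eq' (w : PP K N → ℕ) : alphaH (multIdeal w) = alpha (multIdeal w) := by
  by_cases h : multIdeal w = ⊥
  · have h1 : {d | ∃ F ∈ multIdeal w, F ≠ 0 ∧ F.IsHomogeneous d} = ∅ := by
      ext d
      simp only [Set.mem_ofPred_eq, Set.mem_empty_iff_false, iff_false]
      rintro ⟨F, hF, hF0, -⟩
      rw [h] at hF
      exact hF0 hF
    have h2 : {d | ∃ F ∈ multIdeal w, F ≠ 0 ∧ F.totalDegree = d} = ∅ := by
      ext d
      simp only [Set.mem_ofPred_eq, Set.mem_empty_iff_false, iff_false]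
      rintro ⟨F, hF, hF0, -⟩
      rw [h] at hF
      exact hF0 hF
    unfold alphaH alpha
    rw [h1, h2]
  obtain ⟨F, hF, hF0, hFh⟩ := alpha_spec h
  apply le_antisymm
  · exact Nat.sInf_le ⟨F, hF, hF0, hFh⟩
  · have hne : {d | ∃ F ∈ multIdeal w, F ≠ 0 ∧ F.IsHomogeneous d}.Nonempty := ⟨_, F, hF, hF0, hFh⟩
    obtain ⟨G, hG, hG0, hGh⟩ := Nat.sInf_mem hne
    have := alpha_le hG hG0
    rw [hGh.totalDegree hG0] at this
    exact this

/-- a finite set of points which determines the least degree -/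
theorem exists_finset_alpha (hN : 1 ≤ N) (w : PP K N → ℕ) :
    ∃ T : Finset (PP K N), ∀ T' : Finset (PP K N), T ⊆ T' →
      alpha (multIdeal w) ≤ alpha (wIdeal T' w) := by
  obtain ⟨T, hT⟩ := exists_finset w (alpha (multIdeal w))
  refine ⟨T, fun T' hTT => ?_⟩
  obtain ⟨F, hF, hF0, hFh⟩ := alpha_wIdeal_spec hN T' w
  by_contra hcon
  rw [not_le] at hcon
  have h1 : F.totalDegree = alpha (wIdeal T' w) := hFh.totalDegree hF0
  have h2 : F ∈ wIdeal T w := by
    rw [mem_wIdeal] at hF ⊢
    exact fun p hp => hF p (hTT hp)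
  have h3 := alpha_le (hT F (by omega) h2) hF0
  omega

/-- powers of a form -/
theorem multIdeal_ne_bot {w : PP K N → ℕ} {r : ℕ} (hr : 1 ≤ r)
    (h : multIdeal (fun p => r * w p) ≠ ⊥) (m : ℕ) : multIdeal (fun p => m * w p) ≠ ⊥ := by
  obtain ⟨F, hF, hF0⟩ := Submodule.exists_mem_ne_zero_of_ne_bot h
  refine (Submodule.ne_bot_iff _).2 ⟨F ^ m, ?_, pow_ne_zero _ hF0⟩
  rw [mem_multIdeal] at hF ⊢
  intro p
  have h1 := Ideal.pow_mem_pow (hF p) m
  rw [← pow_mul] at h1
  refine Ideal.pow_le_pow_right ?_ h1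
  calc m * w p = 1 * w p * m := by ring
    _ ≤ r * w p * m := Nat.mul_le_mul_right _ (Nat.mul_le_mul_right _ hr)

/-- finitely many points: there are forms -/
theorem multIdeal_ne_bot_of_finite (hN : 1 ≤ N) {w : PP K N → ℕ} (hw : w.support.Finite) :
    multIdeal w ≠ ⊥ := by
  obtain ⟨F, hF, hF0⟩ := exists_mem_wIdeal hN hw.toFinset w
  refine (Submodule.ne_bot_iff _).2 ⟨F, ?_, hF0⟩
  rw [mem_multIdeal]
  rw [mem_wIdeal] at hF
  intro p
  by_cases hp : w p = 0
  · rw [hp, pow_zero, Ideal.one_eq_top]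
    trivial
  · exact hF p (hw.mem_toFinset.2 hp)

/-- **Demailly's inequality** for arbitrary multiplicities, finite or infinite support -/
theorem demailly_all (hN : 1 ≤ N) (w : PP K N → ℕ) (hw : w ≠ 0) (m r : ℕ) (hm : 1 ≤ m)
    (hne : multIdeal (fun p => r * w p) ≠ ⊥) :
    r * (alpha (multIdeal (fun p => m * w p)) + N - 1) ≤
      alpha (multIdeal (fun p => r * w p)) * (m + N - 1) := by
  classical
  obtain ⟨T, hT⟩ := exists_finset_alpha hN (fun p => m * w p)
  obtain ⟨q, hq⟩ : ∃ q, 1 ≤ w q := by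
    by_contra hcon
    push Not at hcon
    exact hw (funext fun p => by simpa using Nat.lt_one_iff.1 (hcon p))
  have h1 := hT (insert q T) (Finset.subset_insert _ _)
  have h2 := demailly_w hN (insert q T) w ⟨q, Finset.mem_insert_self _ _, hq⟩ m r hm
  have h3 : alpha (wIdeal (insert q T) (fun p => r * w p)) ≤
      alpha (multIdeal (fun p => r * w p)) := by
    obtain ⟨F, hF, hF0, hFh⟩ := alpha_spec hne
    have := alpha_wIdeal_le (multIdeal_le _ (insert q T) hF) hF0
    rwa [hFh.totalDegree hF0] at this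
  calc r * (alpha (multIdeal (fun p => m * w p)) + N - 1)
      ≤ r * (alpha (wIdeal (insert q T) (fun p => m * w p)) + N - 1) :=
        Nat.mul_le_mul_left _ (by omega)
    _ ≤ _ := h2
    _ ≤ _ := Nat.mul_le_mul_right _ h3

theorem alpha_add_le' {w : PP K N → ℕ} (h : ∀ m, multIdeal (fun p => m * w p) ≠ ⊥) (a b : ℕ) :
    alpha (multIdeal (fun p => (a + b) * w p)) ≤
      alpha (multIdeal (fun p => a * w p)) + alpha (multIdeal (fun p => b * w p)) := by
  obtain ⟨F, hF, hF0, hFh⟩ := alpha_spec (h a)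
  obtain ⟨G, hG, hG0, hGh⟩ := alpha_spec (h b)
  have h1 : F * G ∈ multIdeal (fun p => (a + b) * w p) := by
    rw [mem_multIdeal] at hF hG ⊢
    intro p
    rw [add_mul, pow_add]
    exact Ideal.mul_mem_mul (hF p) (hG p)
  have h2 := alpha_le h1 (mul_ne_zero hF0 hG0)
  rwa [(hFh.mul hGh).totalDegree (mul_ne_zero hF0 hG0)] at h2

/-- the Waldschmidt constant exists -/
theorem exists_limit' {w : PP K N → ℕ} (h : ∀ m, multIdeal (fun p => m * w p) ≠ ⊥) :
    ∃ c : ℝ, Tendsto (fun r : ℕ => (alpha (multIdeal (fun p => r * w p)) : ℝ) / r) atTop (𝓝 c) := by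
  have hsub : Subadditive (fun r : ℕ => (alpha (multIdeal (fun p => r * w p)) : ℝ)) := by
    intro a b
    beta_reduce
    exact_mod_cast alpha_add_le' h a b
  refine ⟨_, hsub.tendsto_lim ⟨0, ?_⟩⟩
  rintro _ ⟨r, rfl⟩
  positivity

/-- the symbolic powers of the ideal of a finite set of points -/
theorem symPow_eq (S : Finset (PP K N)) (m : ℕ) :
    symPow S m = multIdeal (fun p => m * Set.indicator (S : Set (PP K N)) 1 p) := by
  classical
  ext F
  rw [mem_multIdeal]
  unfold symPow
  simp only [Submodule.mem_iInf]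
  constructor
  · intro h p
    by_cases hp : p ∈ S
    · rw [Set.indicator_of_mem (Finset.mem_coe.2 hp), Pi.one_apply, mul_one]
      exact h p hp
    · rw [Set.indicator_of_notMem (fun h' => hp (Finset.mem_coe.1 h')), mul_zero, pow_zero,
        Ideal.one_eq_top]
      trivial
  · intro h p hp
    have := h p
    rwa [Set.indicator_of_mem (Finset.mem_coe.2 hp), Pi.one_apply, mul_one] at this

/-- the limit is the infimum -/
theorem limit_le {w : PP K N → ℕ} (h : ∀ m, multIdeal (fun p => m * w p) ≠ ⊥) {c : ℝ}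
    (hc : Tendsto (fun r : ℕ => (alpha (multIdeal (fun p => r * w p)) : ℝ) / r) atTop (𝓝 c))
    (r : ℕ) (hr : 1 ≤ r) : c ≤ (alpha (multIdeal (fun p => r * w p)) : ℝ) / r := by
  have hsub : Subadditive (fun r : ℕ => (alpha (multIdeal (fun p => r * w p)) : ℝ)) := by
    intro a b
    beta_reduce
    exact_mod_cast alpha_add_le' h a b
  have hb : BddBelow (Set.range fun r : ℕ =>
      (fun r : ℕ => (alpha (multIdeal (fun p => r * w p)) : ℝ)) r / r) := by
    refine ⟨0, ?_⟩
    rintro _ ⟨r, rfl⟩
    positivity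
  rw [tendsto_nhds_unique hc (hsub.tendsto_lim hb)]
  exact hsub.lim_le_div hb (by omega)

end Pool.Agent.Y111.DM
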